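import Mathlib

/-!
Planar maps of finite distortion: definitions.
-/

set_option autoImplicit false

noncomputable section

namespace Pool.Agent.Helper47.Dist

open MeasureTheory Set
open scoped ContDiff

/-- The square of the normalised Hilbert-Schmidt norm of a real `2 × 2` matrix:
`‖A‖² = ½ (|A 1|² + |A i|²)` is half of the sum of the squares of the entries. -/
def hsNormSq (A : ℂ →L[ℝ] ℂ) : ℝ := (‖A 1‖ ^ 2 + ‖A Complex.I‖ ^ 2) / 2

/-- The determinant of a real `2 × 2` matrix, with columns `A 1` and `A i`. -/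
def jac (A : ℂ →L[ℝ] ℂ) : ℝ := (A 1).re * (A Complex.I).im - (A 1).im * (A Complex.I).re

/-- `D` is a weak derivative of `f` on the open set `Ω`; that such a `D` exists means that
`f ∈ W^{1,1}_loc(Ω)`. -/
structure HasWeakDeriv (Ω : Set ℂ) (f : ℂ → ℂ) (D : ℂ → ℂ →L[ℝ] ℂ) : Prop where
  locallyIntegrable : LocallyIntegrableOn f Ω
  locallyIntegrable_deriv : LocallyIntegrableOn D Ω
  integral_eq : ∀ φ : ℂ → ℝ, ContDiff ℝ ∞ φ → HasCompactSupport φ → tsupport φ ⊆ Ω → ∀ v : ℂ,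
    ∫ z, φ z • D z v = -∫ z, fderiv ℝ φ z v • f z

/-- `f` has finite distortion on `Ω`, with weak derivative `D`: `f ∈ W^{1,1}_loc`,
`J_f ∈ L¹_loc` and `|Df|² ≤ K J_f` almost everywhere, where `K : Ω → [1,∞]` is finite almost
everywhere. -/
structure HasFiniteDistortion (Ω : Set ℂ) (f : ℂ → ℂ) (D : ℂ → ℂ →L[ℝ] ℂ) : Prop where
  weakDeriv : HasWeakDeriv Ω f D
  locallyIntegrable_jac : LocallyIntegrableOn (fun z => jac (D z)) Ω
  distortion : ∃ K : ℂ → ENNReal, (∀ z ∈ Ω, 1 ≤ K z) ∧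
    ∀ᵐ z ∂volume.restrict Ω, K z ≠ ⊤ ∧ ‖D z‖ ^ 2 ≤ (K z).toReal * jac (D z)

/-- `f` restricts to a homeomorphism of `Ω` onto `Ω'`. -/
structure IsHomeoOnto (f : ℂ → ℂ) (Ω Ω' : Set ℂ) : Prop where
  continuousOn : ContinuousOn f Ω
  bijOn : BijOn f Ω Ω'
  continuousOn_inv : ∃ g : ℂ → ℂ, ContinuousOn g Ω' ∧ ∀ z ∈ Ω, g (f z) = z

/-- The pair `(f, D)` represents an element `f`, with weak derivative `D`, of the class
`H(Ω, Ω')` of homeomorphisms of `Ω` onto `Ω'` of finite distortion. -/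
structure InClass (Ω Ω' : Set ℂ) (f : ℂ → ℂ) (D : ℂ → ℂ →L[ℝ] ℂ) : Prop where
  homeo : IsHomeoOnto f Ω Ω'
  finiteDistortion : HasFiniteDistortion Ω f D

/-- The Hilbert-Schmidt distortion of a matrix: `‖A‖²/det A` if `det A > 0`, and `1` otherwise. -/
def distortion (A : ℂ →L[ℝ] ℂ) : ℝ := if 0 < jac A then hsNormSq A / jac A else 1

/-- The energy `E_p(f) = ∫_Ω 𝕂_f^p`, as a function of the weak derivative `D` of `f`. -/
def energy (p : ℝ) (Ω : Set ℂ) (D : ℂ → ℂ →L[ℝ] ℂ) : ENNReal :=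
  ∫⁻ z in Ω, ENNReal.ofReal (distortion (D z) ^ p)

/-- A planar domain which is not simply connected. -/
structure IsMultiplyConnectedDomain (Ω : Set ℂ) : Prop where
  isOpen : IsOpen Ω
  isConnected : IsConnected Ω
  not_simply : ¬ IsSimplyConnected Ω

lemma jac_le_hsNormSq (A : ℂ →L[ℝ] ℂ) : jac A ≤ hsNormSq A := by
  unfold jac hsNormSq
  rw [← Complex.normSq_eq_norm_sq, ← Complex.normSq_eq_norm_sq, Complex.normSq_apply,
    Complex.normSq_apply]
  nlinarith [sq_nonneg ((A 1).re - (A Complex.I).im), sq_nonneg ((A 1).im + (A Complex.I).re)]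

lemma one_le_distortion (A : ℂ →L[ℝ] ℂ) : 1 ≤ distortion A := by
  unfold distortion
  split_ifs with h
  · rw [one_le_div h]; exact jac_le_hsNormSq A
  · exact le_rfl

/-- If the distortion is `1` and `|A|² ≤ K det A`, then `A` is complex linear. -/
lemma apply_I_of_distortion_eq_one {A : ℂ →L[ℝ] ℂ} {K : ℝ} (hK : ‖A‖ ^ 2 ≤ K * jac A)
    (hK1 : 0 ≤ K) (h : distortion A = 1) : A Complex.I = Complex.I * A 1 := by
  unfold distortion at h
  split_ifs at h with hj
  · rw [div_eq_one_iff_eq hj.ne'] at h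
    unfold jac hsNormSq at h
    rw [← Complex.normSq_eq_norm_sq, ← Complex.normSq_eq_norm_sq, Complex.normSq_apply,
      Complex.normSq_apply] at h
    have h1 : ((A 1).re - (A Complex.I).im) ^ 2 + ((A 1).im + (A Complex.I).re) ^ 2 = 0 := by
      linear_combination 2 * h
    have h2 : (A 1).re - (A Complex.I).im = 0 := by
      nlinarith [sq_nonneg ((A 1).re - (A Complex.I).im), sq_nonneg ((A 1).im + (A Complex.I).re)]
    have h3 : (A 1).im + (A Complex.I).re = 0 := by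
      nlinarith [sq_nonneg ((A 1).re - (A Complex.I).im), sq_nonneg ((A 1).im + (A Complex.I).re)]
    apply Complex.ext
    · simp; linarith
    · simp; linarith
  · have h1 : ‖A‖ ^ 2 ≤ 0 := by
      refine hK.trans ?_
      exact mul_nonpos_of_nonneg_of_nonpos hK1 (not_lt.1 hj)
    have h2 : ‖A‖ = 0 := by nlinarith [norm_nonneg A]
    have h3 : A = 0 := norm_eq_zero.1 h2
    rw [h3]; simp

end Pool.Agent.Helper47.Dist
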