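import Pool.Agent.Helper47.Dist.Defs

/-!
The disc minus a bi-infinite sequence: geometry.
-/

set_option autoImplicit false

namespace Pool.Agent.Helper47.Dist

open Set Filter Topology Metric

/-- The unit disc. -/
abbrev UD : Set ℂ := ball (0 : ℂ) 1

/-- The conformal map of the disc onto the strip `|Im w| < π/2`. -/
noncomputable def L (z : ℂ) : ℂ := Complex.log ((1 + z) / (1 - z))

/-- Its inverse, the hyperbolic tangent of `w/2`. -/
noncomputable def T (w : ℂ) : ℂ := (Complex.exp w - 1) / (Complex.exp w + 1)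

/-- The strip. -/
def strip : Set ℂ := {w | |w.im| < Real.pi / 2}

lemma one_sub_ne {z : ℂ} (hz : z ∈ UD) : 1 - z ≠ 0 := by
  intro h
  rw [← sub_eq_zero.1 h, mem_ball_zero_iff, norm_one] at hz
  exact lt_irrefl _ hz

lemma re_frac_pos {z : ℂ} (hz : z ∈ UD) : 0 < ((1 + z) / (1 - z)).re := by
  have h1 := one_sub_ne hz
  have h2 : 0 < Complex.normSq (1 - z) := Complex.normSq_pos.2 h1
  rw [Complex.div_re, ← add_div]
  apply div_pos _ h2
  have h3 : z.re * z.re + z.im * z.im < 1 := by
    rw [← Complex.normSq_apply, Complex.normSq_eq_norm_sq]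
    rw [mem_ball_zero_iff] at hz
    exact (sq_lt_one_iff₀ (norm_nonneg _)).2 hz
  simp
  nlinarith

lemma frac_ne_zero {z : ℂ} (hz : z ∈ UD) : (1 + z) / (1 - z) ≠ 0 := by
  intro h
  have := re_frac_pos hz
  rw [h] at this
  simp at this

lemma frac_slit {z : ℂ} (hz : z ∈ UD) : (1 + z) / (1 - z) ∈ Complex.slitPlane :=
  Complex.mem_slitPlane_iff.2 (Or.inl (re_frac_pos hz))

lemma exp_L {z : ℂ} (hz : z ∈ UD) : Complex.exp (L z) = (1 + z) / (1 - z) :=
  Complex.exp_log (frac_ne_zero hz)

lemma L_mem_strip {z : ℂ} (hz : z ∈ UD) : L z ∈ strip := by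
  show |(Complex.log ((1 + z) / (1 - z))).im| < Real.pi / 2
  rw [Complex.log_im, Complex.abs_arg_lt_pi_div_two_iff]
  exact Or.inl (re_frac_pos hz)

lemma T_L {z : ℂ} (hz : z ∈ UD) : T (L z) = z := by
  unfold T
  rw [exp_L hz]
  have h1 := one_sub_ne hz
  have h2 : (1 + z) / (1 - z) + 1 = 2 / (1 - z) := by field_simp; ring
  have h3 : (1 + z) / (1 - z) - 1 = 2 * z / (1 - z) := by field_simp; ring
  rw [h2, h3]
  field_simp

lemma exp_re_pos {w : ℂ} (hw : w ∈ strip) : 0 < (Complex.exp w).re := by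
  rw [Complex.exp_re]
  have h : |w.im| < Real.pi / 2 := hw
  have h1 := abs_lt.1 h
  exact mul_pos (Real.exp_pos _) (Real.cos_pos_of_mem_Ioo ⟨by linarith [h1.1], h1.2⟩)

lemma exp_add_one_ne {w : ℂ} (hw : w ∈ strip) : Complex.exp w + 1 ≠ 0 := by
  intro h
  have h1 := exp_re_pos hw
  have h2 := congrArg Complex.re h
  rw [Complex.add_re, Complex.one_re, Complex.zero_re] at h2
  linarith

lemma T_mem {w : ℂ} (hw : w ∈ strip) : T w ∈ UD := by
  have h1 := exp_re_pos hw
  have h2 := exp_add_one_ne hw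
  rw [mem_ball_zero_iff, T, norm_div, div_lt_one (norm_pos_iff.2 h2)]
  have h3 : ‖Complex.exp w - 1‖ ^ 2 < ‖Complex.exp w + 1‖ ^ 2 := by
    rw [← Complex.normSq_eq_norm_sq, ← Complex.normSq_eq_norm_sq, Complex.normSq_apply,
      Complex.normSq_apply]
    simp only [Complex.sub_re, Complex.one_re, Complex.sub_im, Complex.one_im, Complex.add_re,
      Complex.add_im]
    nlinarith
  exact lt_of_pow_lt_pow_left₀ 2 (norm_nonneg _) h3

lemma L_T {w : ℂ} (hw : w ∈ strip) : L (T w) = w := by
  have h2 := exp_add_one_ne hw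
  have h : |w.im| < Real.pi / 2 := hw
  have h1 := abs_lt.1 h
  have hpi := Real.pi_pos
  have e1 : 1 + T w = 2 * Complex.exp w / (Complex.exp w + 1) := by
    unfold T; field_simp; ring
  have e2 : 1 - T w = 2 / (Complex.exp w + 1) := by
    unfold T; field_simp; ring
  have e3 : (1 + T w) / (1 - T w) = Complex.exp w := by
    rw [e1, e2]; field_simp
  unfold L
  rw [e3, Complex.log_exp (by linarith [h1.1]) (by linarith [h1.2])]

lemma L_injOn : InjOn L UD := fun z hz w hw h => by
  rw [← T_L hz, ← T_L hw, h]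

lemma differentiableOn_L : DifferentiableOn ℂ L UD := by
  have h1 : DifferentiableOn ℂ (fun z : ℂ => (1 + z) / (1 - z)) UD := by
    refine DifferentiableOn.div ?_ ?_ fun z hz => one_sub_ne hz
    · exact (differentiable_id.const_add 1).differentiableOn
    · exact (differentiable_id.const_sub 1).differentiableOn
  exact h1.clog fun z hz => frac_slit hz

lemma hasDerivAt_L {z : ℂ} (hz : z ∈ UD) : HasDerivAt L (2 / ((1 + z) * (1 - z))) z := by
  have h1 := one_sub_ne hz
  have h2 : HasDerivAt (fun z : ℂ => (1 + z) / (1 - z)) (2 / (1 - z) ^ 2) z := by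
    have := ((hasDerivAt_id z).const_add 1).div ((hasDerivAt_id z).const_sub 1) h1
    refine this.congr_deriv ?_
    simp only [id_eq]
    ring
  have h3 := h2.clog (frac_slit hz)
  refine h3.congr_deriv ?_
  have h4 : 1 + z ≠ 0 := by
    intro h
    have := frac_ne_zero hz
    rw [h, zero_div] at this
    exact this rfl
  field_simp

lemma deriv_L_ne {z : ℂ} (hz : z ∈ UD) : 2 / ((1 + z) * (1 - z)) ≠ 0 := by
  have h1 := one_sub_ne hz
  have h4 : 1 + z ≠ 0 := by
    intro h
    have := frac_ne_zero hz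
    rw [h, zero_div] at this
    exact this rfl
  exact div_ne_zero two_ne_zero (mul_ne_zero h4 h1)

/-- The punctures. -/
noncomputable def pnt (n : ℤ) : ℂ := T (n : ℂ)

lemma int_mem_strip (n : ℤ) : (n : ℂ) ∈ strip := by
  show |((n : ℂ)).im| < Real.pi / 2
  simp [Real.pi_pos]

lemma L_pnt (n : ℤ) : L (pnt n) = n := L_T (int_mem_strip n)

lemma pnt_mem (n : ℤ) : pnt n ∈ UD := T_mem (int_mem_strip n)

/-- The domain `Ω`: the disc minus the points `tanh(n/2)`, `n ∈ ℤ`. -/
def Om : Set ℂ := UD \ range pnt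

/-- The domain `Ω'`: the disc minus the points `tanh(n/2)`, `n ∈ ℤ`, `n ≠ 0`. -/
def Om' : Set ℂ := UD \ (pnt '' {n | n ≠ 0})

lemma Om_subset : Om ⊆ UD := sdiff_subset
lemma Om'_subset : Om' ⊆ UD := sdiff_subset

lemma pnt_zero : pnt 0 = 0 := by simp [pnt, T]

lemma isOpen_of_closed {S : Set ℤ} : IsOpen (UD \ (pnt '' S)) := by
  have h1 : UD \ (pnt '' S) = UD ∩ L ⁻¹' ((fun n : ℤ => (n : ℂ)) '' S)ᶜ := by
    ext z
    constructor
    · rintro ⟨h1, h2⟩
      refine ⟨h1, ?_⟩
      rintro ⟨n, hn, hn'⟩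
      apply h2
      refine ⟨n, hn, ?_⟩
      rw [pnt]
      simp only at hn'
      rw [hn', T_L h1]
    · rintro ⟨h1, h2⟩
      refine ⟨h1, ?_⟩
      rintro ⟨n, hn, rfl⟩
      apply h2
      exact ⟨n, hn, (L_pnt n).symm⟩
  rw [h1]
  refine differentiableOn_L.continuousOn.isOpen_inter_preimage isOpen_ball ?_
  rw [isOpen_compl_iff]
  have h2 : Topology.IsClosedEmbedding ((↑) : ℤ → ℂ) := Complex.isClosedEmbedding_intCast
  exact h2.isClosedMap S (isClosed_discrete S)

lemma isOpen_Om : IsOpen Om := by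
  rw [Om, ← image_univ]; exact isOpen_of_closed

lemma isOpen_Om' : IsOpen Om' := isOpen_of_closed

/-- Every puncture is isolated. -/
lemma eventually_mem_Om (n : ℤ) : ∀ᶠ z in 𝓝[≠] (pnt n), z ∈ Om := by
  have h1 : IsOpen (UD \ (pnt '' {m | m ≠ n})) := isOpen_of_closed
  have h2 : pnt n ∈ UD \ (pnt '' {m | m ≠ n}) := by
    refine ⟨pnt_mem n, ?_⟩
    rintro ⟨m, hm, hmn⟩
    have h3 := congrArg L hmn
    rw [L_pnt, L_pnt] at h3
    exact hm (by exact_mod_cast h3)
  filter_upwards [nhdsWithin_le_nhds (h1.mem_nhds h2), self_mem_nhdsWithin] with z h3 h4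
  refine ⟨h3.1, ?_⟩
  rintro ⟨m, rfl⟩
  by_cases hm : m = n
  · exact h4 (by rw [hm]; rfl)
  · exact h3.2 ⟨m, hm, rfl⟩

lemma Om_subset_Om' : Om ⊆ Om' := fun _ hz => ⟨hz.1, fun ⟨n, _, h⟩ => hz.2 ⟨n, h⟩⟩

lemma isConnected_diff_countable {A : Set ℂ} (hA : A.Countable) : IsConnected (UD \ A) := by
  set e := Homeomorph.unitBall (E := ℂ) with he
  set A₀ : Set ℂ := {x | ((e x : UD) : ℂ) ∈ A} with hA₀
  have hinj : Function.Injective fun x : ℂ => ((e x : UD) : ℂ) :=
    Subtype.val_injective.comp e.injective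
  have h1 : A₀.Countable := hA.preimage hinj
  have h2 : IsConnected A₀ᶜ := h1.isConnected_compl_of_one_lt_rank (by
    rw [Complex.rank_real_complex]; norm_num)
  have h3 : UD \ A = (fun x : ℂ => ((e x : UD) : ℂ)) '' A₀ᶜ := by
    ext z
    constructor
    · rintro ⟨h4, h5⟩
      refine ⟨e.symm ⟨z, h4⟩, ?_, ?_⟩
      · intro h6
        apply h5
        have : ((e (e.symm ⟨z, h4⟩) : UD) : ℂ) ∈ A := h6
        rwa [e.apply_symm_apply] at this
      · simp
    · rintro ⟨x, hx, rfl⟩
      exact ⟨(e x).2, hx⟩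
  rw [h3]
  exact h2.image _ (continuous_subtype_val.comp e.continuous).continuousOn

/-- An open set containing a circle but not its centre is not simply connected. -/
lemma not_isSimplyConnected {U : Set ℂ} (hU : IsOpen U) {c : ℂ} (hc : c ∉ U) {r : ℝ} (hr : 0 < r)
    (hs : sphere c r ⊆ U) : ¬ IsSimplyConnected U := by
  intro h
  obtain ⟨f, hf, hfe⟩ := Complex.exists_continuousOn_eqOn_exp_comp h hU
    (g := fun z => z - c) (by fun_prop) (by
      rintro ⟨z, hz, hz'⟩
      exact hc (by rwa [← sub_eq_zero.1 hz']))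
  -- the loop
  set γ : ℝ → ℂ := fun t => c + r * Complex.exp (t * Complex.I) with hγ
  have hγc : Continuous γ := by fun_prop
  have hγU : ∀ t, γ t ∈ U := by
    intro t
    apply hs
    rw [mem_sphere, dist_eq_norm, hγ]
    simp only [add_sub_cancel_left, norm_mul, Complex.norm_exp_ofReal_mul_I, mul_one,
      Complex.norm_real, Real.norm_eq_abs, abs_of_pos hr]
  have hfγ : Continuous fun t => f (γ t) := hf.comp_continuous hγc hγU
  set k : ℝ → ℂ := fun t => f (γ t) - t * Complex.I - Real.log r with hk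
  have hkc : Continuous k :=
    (hfγ.sub (Complex.continuous_ofReal.mul continuous_const)).sub continuous_const
  have hkexp : ∀ t, Complex.exp (k t) = 1 := by
    intro t
    have h1 : Complex.exp (f (γ t)) = γ t - c := hfe (hγU t)
    rw [hk]
    simp only
    rw [Complex.exp_sub, Complex.exp_sub, h1, hγ]
    simp only [add_sub_cancel_left]
    have h2 : Complex.exp ((Real.log r : ℝ) : ℂ) = r := by
      rw [← Complex.ofReal_exp, Real.exp_log hr]
    rw [h2]
    have h3 : (r : ℂ) ≠ 0 := by exact_mod_cast hr.ne'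
    have h4 := Complex.exp_ne_zero (t * Complex.I)
    field_simp
  -- `k` takes values in `2πiℤ`
  have hkint : ∀ t, ∃ n : ℤ, k t = n * (2 * Real.pi * Complex.I) := fun t =>
    Complex.exp_eq_one_iff.1 (hkexp t)
  choose n hn using hkint
  have hnc : Continuous n := by
    have h1 : Continuous fun t => ((n t : ℤ) : ℂ) := by
      have h2 : (fun t => ((n t : ℤ) : ℂ)) = fun t => k t / (2 * Real.pi * Complex.I) := by
        funext t
        rw [hn t, mul_div_cancel_right₀]
        exact Complex.two_pi_I_ne_zero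
      rw [h2]
      exact hkc.div_const _
    exact Complex.isClosedEmbedding_intCast.isEmbedding.continuous_iff.2 h1
  have hconst : n 0 = n (2 * Real.pi) :=
    PreconnectedSpace.constant inferInstance hnc
  have h1 : k 0 = k (2 * Real.pi) := by rw [hn, hn, hconst]
  have h2 : γ 0 = γ (2 * Real.pi) := by
    rw [hγ]
    simp only [Complex.ofReal_zero, zero_mul, Complex.exp_zero, Complex.ofReal_mul,
      Complex.ofReal_ofNat, Complex.exp_two_pi_mul_I]
  rw [hk] at h1
  simp only at h1
  rw [h2] at h1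
  have h3 : (2 * Real.pi * Complex.I : ℂ) = 0 := by
    push_cast at h1
    linear_combination h1
  exact Complex.two_pi_I_ne_zero h3

lemma not_simply_of_puncture {U : Set ℂ} (hU : IsOpen U) {n : ℤ} (hn : pnt n ∉ U) (hOm : Om ⊆ U) :
    ¬ IsSimplyConnected U := by
  have h1 := eventually_mem_Om n
  rw [eventually_nhdsWithin_iff, Metric.eventually_nhds_iff] at h1
  obtain ⟨ε, hε, h2⟩ := h1
  refine not_isSimplyConnected hU hn (r := ε / 2) (by positivity) fun z hz => hOm ?_
  rw [mem_sphere] at hz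
  refine h2 (by rw [hz]; linarith) ?_
  rintro rfl
  rw [dist_self] at hz
  linarith

lemma isMultiplyConnectedDomain_Om : IsMultiplyConnectedDomain Om where
  isOpen := isOpen_Om
  isConnected := isConnected_diff_countable (countable_range _)
  not_simply := not_simply_of_puncture isOpen_Om (n := 1) (fun h => h.2 ⟨1, rfl⟩) subset_rfl

lemma isMultiplyConnectedDomain_Om' : IsMultiplyConnectedDomain Om' where
  isOpen := isOpen_Om'
  isConnected := isConnected_diff_countable ((to_countable _).image _)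
  not_simply := not_simply_of_puncture isOpen_Om' (n := 1) (fun h => h.2 ⟨1, one_ne_zero, rfl⟩)
    Om_subset_Om'

end Pool.Agent.Helper47.Dist
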