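import Pool.Agent.Helper47.Dist.Disc
import Pool.Agent.Helper47.WCO.Entire

/-!
There is no conformal homeomorphism between the two punctured discs.
-/

set_option autoImplicit false

namespace Pool.Agent.Helper47.Dist

open Set Filter Topology Metric ComplexConjugate

/-- Removable singularities. -/
lemma exists_extension {P : Set ℂ} (hP : ∀ p ∈ P, ∀ᶠ z in 𝓝[≠] p, z ∈ UD \ P)
    (hopen : IsOpen (UD \ P)) {f : ℂ → ℂ} (hf : DifferentiableOn ℂ f (UD \ P))
    (hb : ∀ z ∈ UD \ P, f z ∈ UD) :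
    ∃ F : ℂ → ℂ, DifferentiableOn ℂ F UD ∧ ∀ z ∈ UD \ P, F z = f z := by
  classical
  refine ⟨fun z => if z ∈ UD \ P then f z else limUnder (𝓝[≠] z) f, ?_, fun z hz => if_pos hz⟩
  intro z hz
  by_cases hzP : z ∈ P
  · -- a puncture
    have h1 := hP z hzP
    rw [eventually_nhdsWithin_iff, Metric.eventually_nhds_iff_ball] at h1
    obtain ⟨ε, hε, h2⟩ := h1
    have hs : ball z ε ∈ 𝓝 z := ball_mem_nhds z hε
    have hsub : ball z ε \ {z} ⊆ UD \ P := fun w hw => h2 w hw.1 hw.2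
    have h3 := Complex.differentiableOn_update_limUnder_of_bddAbove hs (hf.mono hsub) (by
      refine ⟨1, ?_⟩
      rintro _ ⟨w, hw, rfl⟩
      exact (mem_ball_zero_iff.1 (hb w (hsub hw))).le)
    refine ((h3.differentiableAt hs).congr_of_eventuallyEq ?_).differentiableWithinAt
    filter_upwards [hs] with w hw
    by_cases hwz : w = z
    · subst hwz
      rw [Function.update_self, if_neg]
      exact fun h => h.2 hzP
    · rw [Function.update_of_ne hwz, if_pos (hsub ⟨hw, hwz⟩)]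
  · have hzU : z ∈ UD \ P := ⟨hz, hzP⟩
    refine ((hf.differentiableAt (hopen.mem_nhds hzU)).congr_of_eventuallyEq ?_).differentiableWithinAt
    filter_upwards [hopen.mem_nhds hzU] with w hw
    rw [if_pos hw]

/-- The extension maps the disc into itself. -/
lemma extension_mapsTo {P : Set ℂ} (hP : ∀ p ∈ P, ∀ᶠ z in 𝓝[≠] p, z ∈ UD \ P)
    {F : ℂ → ℂ} (hF : DifferentiableOn ℂ F UD) (hb : ∀ z ∈ UD \ P, F z ∈ UD)
    (hnc : ∃ z ∈ UD, ∃ w ∈ UD, F z ≠ F w) : MapsTo F UD UD := by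
  have hcl : MapsTo F UD (closedBall 0 1) := by
    intro z hz
    by_cases hzP : z ∈ P
    · have h1 : Tendsto F (𝓝[≠] z) (𝓝 (F z)) :=
        ((hF.differentiableAt (isOpen_ball.mem_nhds hz)).continuousAt.tendsto).mono_left
          nhdsWithin_le_nhds
      refine isClosed_closedBall.mem_of_tendsto h1 ?_
      filter_upwards [hP z hzP] with w hw
      exact ball_subset_closedBall (hb w hw)
    · exact ball_subset_closedBall (hb z ⟨hz, hzP⟩)
  have han : AnalyticOnNhd ℂ F UD := hF.analyticOnNhd isOpen_ball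
  rcases han.is_constant_or_isOpen (convex_ball (0 : ℂ) 1).isPreconnected with ⟨c, hc⟩ | ho
  · obtain ⟨z, hz, w, hw, hzw⟩ := hnc
    exact absurd (by rw [hc z hz, hc w hw]) hzw
  · have h1 : IsOpen (F '' UD) := ho UD subset_rfl isOpen_ball
    have h2 : F '' UD ⊆ interior (closedBall 0 1) := interior_maximal (image_subset_iff.2 hcl) h1
    rw [interior_closedBall _ one_ne_zero] at h2
    exact fun z hz => h2 ⟨z, hz, rfl⟩

/-- If `G ∘ F` is the identity off the punctures, it is the identity. -/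
lemma comp_eq_id {P : Set ℂ} (hP : ∀ p ∈ P, ∀ᶠ z in 𝓝[≠] p, z ∈ UD \ P) {F G : ℂ → ℂ}
    (hF : DifferentiableOn ℂ F UD) (hG : DifferentiableOn ℂ G UD) (hm : MapsTo F UD UD)
    (h : ∀ z ∈ UD \ P, G (F z) = z) : ∀ z ∈ UD, G (F z) = z := by
  intro z hz
  by_cases hzP : z ∈ P
  · have h1 : ContinuousAt (fun z => G (F z)) z := by
      have h2 : ContinuousAt G (F z) :=
        (hG.differentiableAt (isOpen_ball.mem_nhds (hm hz))).continuousAt
      exact h2.comp (hF.differentiableAt (isOpen_ball.mem_nhds hz)).continuousAt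
    have h3 : Tendsto (fun z => G (F z)) (𝓝[≠] z) (𝓝 (G (F z))) :=
      h1.tendsto.mono_left nhdsWithin_le_nhds
    have h4 : Tendsto (fun z => G (F z)) (𝓝[≠] z) (𝓝 z) := by
      have h5 : Tendsto (fun w : ℂ => w) (𝓝[≠] z) (𝓝 z) := tendsto_id.mono_left nhdsWithin_le_nhds
      refine h5.congr' ?_
      filter_upwards [hP z hzP] with w hw
      exact (h w hw).symm
    exact tendsto_nhds_unique h3 h4
  · exact h z ⟨hz, hzP⟩

/-! ### Schwarz-Pick -/

/-- The Möbius transformation `(z - c)/(1 - c̄ z)`. -/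
noncomputable def mob (c z : ℂ) : ℂ := (z - c) / (1 - conj c * z)

lemma mob_denom_ne {c z : ℂ} (hc : c ∈ UD) (hz : z ∈ UD) : 1 - conj c * z ≠ 0 := by
  intro h
  rw [mem_ball_zero_iff] at hc hz
  have h1 : conj c * z = 1 := (sub_eq_zero.1 h).symm
  have h2 : ‖conj c * z‖ = 1 := by rw [h1, norm_one]
  rw [norm_mul, RCLike.norm_conj] at h2
  have h3 : ‖c‖ * ‖z‖ ≤ 1 * ‖z‖ := mul_le_mul_of_nonneg_right hc.le (norm_nonneg _)
  linarith

lemma mob_mem {c z : ℂ} (hc : c ∈ UD) (hz : z ∈ UD) : mob c z ∈ UD := by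
  have h1 := mob_denom_ne hc hz
  rw [mem_ball_zero_iff, mob, norm_div, div_lt_one (norm_pos_iff.2 h1)]
  rw [mem_ball_zero_iff] at hc hz
  have hc' : Complex.normSq c < 1 := by
    rw [Complex.normSq_eq_norm_sq]; exact (sq_lt_one_iff₀ (norm_nonneg _)).2 hc
  have hz' : Complex.normSq z < 1 := by
    rw [Complex.normSq_eq_norm_sq]; exact (sq_lt_one_iff₀ (norm_nonneg _)).2 hz
  have h3 : ‖z - c‖ ^ 2 < ‖1 - conj c * z‖ ^ 2 := by
    rw [← Complex.normSq_eq_norm_sq, ← Complex.normSq_eq_norm_sq]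
    rw [Complex.normSq_apply] at hc' hz' ⊢
    rw [Complex.normSq_apply]
    simp only [Complex.sub_re, Complex.sub_im, Complex.one_re, Complex.one_im, Complex.mul_re,
      Complex.mul_im, Complex.conj_re, Complex.conj_im]
    nlinarith
  exact lt_of_pow_lt_pow_left₀ 2 (norm_nonneg _) h3

lemma neg_mem_UD {c : ℂ} (hc : c ∈ UD) : -c ∈ UD := by
  rw [mem_ball_zero_iff] at hc ⊢
  rwa [norm_neg]

lemma mob_neg_mob {c z : ℂ} (hc : c ∈ UD) (hz : z ∈ UD) : mob (-c) (mob c z) = z := by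
  have h1 := mob_denom_ne hc hz
  have h2 := mob_denom_ne hc hc
  unfold mob
  rw [map_neg]
  have e1 : 1 - -conj c * ((z - c) / (1 - conj c * z)) = (1 - conj c * c) / (1 - conj c * z) := by
    rw [eq_div_iff h1, sub_mul, mul_assoc, div_mul_cancel₀ _ h1]; ring
  have e2 : (z - c) / (1 - conj c * z) - -c = z * (1 - conj c * c) / (1 - conj c * z) := by
    rw [eq_div_iff h1, sub_mul, div_mul_cancel₀ _ h1]; ring
  rw [e1, e2, div_div_div_cancel_right₀ h1, mul_div_cancel_right₀ _ h2]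

lemma differentiableOn_mob {c : ℂ} (hc : c ∈ UD) : DifferentiableOn ℂ (mob c) UD := by
  refine DifferentiableOn.div ?_ ?_ fun z hz => mob_denom_ne hc hz
  · exact (differentiable_id.sub_const c).differentiableOn
  · exact ((differentiable_id.const_mul _).const_sub 1).differentiableOn

lemma mob_self (c : ℂ) : mob c c = 0 := by simp [mob]

lemma schwarz_pick {F : ℂ → ℂ} (hF : DifferentiableOn ℂ F UD) (hm : MapsTo F UD UD) {a b : ℂ}
    (ha : a ∈ UD) (hb : b ∈ UD) : ‖mob (F b) (F a)‖ ≤ ‖mob b a‖ := by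
  set K : ℂ → ℂ := fun z => mob (F b) (F (mob (-b) z)) with hK
  have hnb := neg_mem_UD hb
  have hKd : DifferentiableOn ℂ K UD :=
    (differentiableOn_mob (hm hb)).comp (hF.comp (differentiableOn_mob hnb)
      fun z hz => mob_mem hnb hz) fun z hz => hm (mob_mem hnb hz)
  have hKm : MapsTo K UD (closedBall 0 1) := fun z hz =>
    ball_subset_closedBall (mob_mem (hm hb) (hm (mob_mem hnb hz)))
  have hK0 : K 0 = 0 := by
    have : mob (-b) 0 = b := by simp [mob]
    rw [hK]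
    simp only
    rw [this, mob_self]
  have h1 := Complex.norm_le_norm_of_mapsTo_ball hKd hKm hK0 (mem_ball_zero_iff.1 (mob_mem hb ha))
  rw [hK] at h1
  simp only at h1
  rwa [mob_neg_mob hb ha] at h1

lemma pnt_eq (n : ℤ) : pnt n = (((Real.exp n - 1) / (Real.exp n + 1) : ℝ) : ℂ) := by
  unfold pnt T
  push_cast
  rfl

/-- The pseudo-hyperbolic distances of the punctures. -/
lemma norm_mob_pnt (m n : ℤ) :
    ‖mob (pnt m) (pnt n)‖ = |Real.exp (n - m) - 1| / (Real.exp (n - m) + 1) := by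
  rw [pnt_eq, pnt_eq, mob, Complex.conj_ofReal]
  have hm : 0 < Real.exp m := Real.exp_pos _
  have hn : 0 < Real.exp n := Real.exp_pos _
  have h1 : (((Real.exp n - 1) / (Real.exp n + 1) : ℝ) : ℂ)
      - (((Real.exp m - 1) / (Real.exp m + 1) : ℝ) : ℂ)
      = (((Real.exp n - 1) / (Real.exp n + 1) - (Real.exp m - 1) / (Real.exp m + 1) : ℝ) : ℂ) := by
    push_cast; ring
  have h2 : 1 - (((Real.exp m - 1) / (Real.exp m + 1) : ℝ) : ℂ)
      * (((Real.exp n - 1) / (Real.exp n + 1) : ℝ) : ℂ)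
      = ((1 - (Real.exp m - 1) / (Real.exp m + 1) * ((Real.exp n - 1) / (Real.exp n + 1)) : ℝ) : ℂ) := by
    push_cast; ring
  rw [h1, h2, ← Complex.ofReal_div, Complex.norm_real, Real.norm_eq_abs, Real.exp_sub]
  have e : ((Real.exp n - 1) / (Real.exp n + 1) - (Real.exp m - 1) / (Real.exp m + 1)) /
      (1 - (Real.exp m - 1) / (Real.exp m + 1) * ((Real.exp n - 1) / (Real.exp n + 1)))
      = (Real.exp n / Real.exp m - 1) / (Real.exp n / Real.exp m + 1) := by
    have h3 : 1 - (Real.exp m - 1) / (Real.exp m + 1) * ((Real.exp n - 1) / (Real.exp n + 1))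
        = 2 * (Real.exp m + Real.exp n) / ((Real.exp m + 1) * (Real.exp n + 1)) := by
      field_simp; ring
    have h4 : (Real.exp n - 1) / (Real.exp n + 1) - (Real.exp m - 1) / (Real.exp m + 1)
        = 2 * (Real.exp n - Real.exp m) / ((Real.exp m + 1) * (Real.exp n + 1)) := by
      field_simp; ring
    rw [h3, h4, div_div_div_cancel_right₀ (by positivity), mul_div_mul_left _ _ (by norm_num : (2 : ℝ) ≠ 0)]
    have h5 : Real.exp n / Real.exp m + 1 = (Real.exp m + Real.exp n) / Real.exp m := by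
      field_simp; ring
    have h6 : Real.exp n / Real.exp m - 1 = (Real.exp n - Real.exp m) / Real.exp m := by
      field_simp
    rw [h5, h6, div_div_div_cancel_right₀ hm.ne']
  rw [e, abs_div, abs_of_pos (a := Real.exp n / Real.exp m + 1) (by positivity)]

/-- Two punctures at distance `1` in the strip. -/
lemma eq_of_norm_mob {k m : ℤ} (h : ‖mob (pnt m) (pnt k)‖ = (Real.exp 1 - 1) / (Real.exp 1 + 1)) :
    k = m + 1 ∨ k = m - 1 := by
  rw [norm_mob_pnt] at h
  set t := Real.exp ((k : ℝ) - m) with ht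
  have htpos : 0 < t := Real.exp_pos _
  have he : 0 < Real.exp 1 := Real.exp_pos _
  rw [div_eq_div_iff (by positivity) (by positivity)] at h
  rcases le_total 1 t with h1 | h1
  · left
    rw [abs_of_nonneg (by linarith)] at h
    have h2 : t = Real.exp 1 := by linarith
    have h3 : (k : ℝ) - m = 1 := Real.exp_injective h2
    have h4 : (k : ℝ) = m + 1 := by linarith
    exact_mod_cast h4
  · right
    rw [abs_of_nonpos (by linarith)] at h
    have h2 : t * Real.exp 1 = 1 := by linarith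
    rw [ht, ← Real.exp_add] at h2
    have h3 : (k : ℝ) - m + 1 = 0 := Real.exp_injective (by rw [h2, Real.exp_zero])
    have h4 : (k : ℝ) = m - 1 := by linarith
    exact_mod_cast h4

lemma norm_mob_succ (m : ℤ) : ‖mob (pnt m) (pnt (m + 1))‖ = (Real.exp 1 - 1) / (Real.exp 1 + 1) := by
  rw [norm_mob_pnt]
  push_cast
  rw [add_sub_cancel_left, abs_of_nonneg]
  have := Real.add_one_le_exp 1
  linarith

lemma norm_mob_pred (m : ℤ) : ‖mob (pnt m) (pnt (m - 1))‖ = (Real.exp 1 - 1) / (Real.exp 1 + 1) := by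
  rw [norm_mob_pnt]
  push_cast
  rw [show (m : ℝ) - 1 - m = -1 by ring, Real.exp_neg]
  have h1 : 1 < Real.exp 1 := by have := Real.add_one_le_exp 1; linarith
  have h2 : (Real.exp 1)⁻¹ < 1 := inv_lt_one_of_one_lt₀ h1
  rw [abs_of_nonpos (by linarith)]
  have h3 : Real.exp 1 ≠ 0 := (Real.exp_pos 1).ne'
  field_simp
  ring

lemma pnt_injective : Function.Injective pnt := by
  intro m n h
  have h3 := congrArg L h
  rw [L_pnt, L_pnt] at h3
  exact_mod_cast h3

lemma eventually_mem_Om' (n : ℤ) : ∀ᶠ z in 𝓝[≠] (pnt n), z ∈ Om' :=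
  (eventually_mem_Om n).mono fun _ hz => Om_subset_Om' hz

/-- There is no conformal homeomorphism of `Ω` onto `Ω'`. -/
theorem no_conformal {f : ℂ → ℂ} (hh : IsHomeoOnto f Om Om') (hf : DifferentiableOn ℂ f Om) :
    False := by
  obtain ⟨hfc, hbij, g, hgc, hg⟩ := hh
  have hgm : MapsTo g Om' Om := by
    intro w hw
    obtain ⟨z, hz, rfl⟩ := hbij.surjOn hw
    rw [hg z hz]; exact hz
  have hfg : ∀ w ∈ Om', f (g w) = w := by
    intro w hw
    obtain ⟨z, hz, rfl⟩ := hbij.surjOn hw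
    rw [hg z hz]
  have hgd : DifferentiableOn ℂ g Om' := by
    intro w hw
    obtain ⟨z, hz, rfl⟩ := hbij.surjOn hw
    exact (WCO.differentiableAt_of_comp isOpen_Om hf hbij.injOn differentiableOn_id
      (fun z hz => hg z hz) hz).differentiableWithinAt
  have hginj : InjOn g Om' := by
    intro w hw w' hw' h
    rw [← hfg w hw, ← hfg w' hw', h]
  have hP : ∀ p ∈ range pnt, ∀ᶠ z in 𝓝[≠] p, z ∈ UD \ range pnt := by
    rintro _ ⟨n, rfl⟩; exact eventually_mem_Om n
  have hP' : ∀ p ∈ pnt '' {n | n ≠ 0}, ∀ᶠ z in 𝓝[≠] p, z ∈ UD \ (pnt '' {n | n ≠ 0}) := by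
    rintro _ ⟨n, _, rfl⟩; exact eventually_mem_Om' n
  obtain ⟨F, hFd, hF⟩ := exists_extension hP isOpen_Om hf (fun z hz => Om'_subset (hbij.mapsTo hz))
  obtain ⟨G, hGd, hG⟩ := exists_extension hP' isOpen_Om' hgd (fun z hz => Om_subset (hgm hz))
  -- nonconstant
  obtain ⟨z₁, hz₁, z₂, hz₂, hz₁₂⟩ : ∃ z₁ ∈ Om, ∃ z₂ ∈ Om, z₁ ≠ z₂ := by
    obtain ⟨z₁, hz₁⟩ := isMultiplyConnectedDomain_Om.isConnected.nonempty
    have h1 : ∀ᶠ z in 𝓝[≠] z₁, z ∈ Om ∧ z ≠ z₁ := by
      filter_upwards [nhdsWithin_le_nhds (isOpen_Om.mem_nhds hz₁), self_mem_nhdsWithin] with z h2 h3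
      exact ⟨h2, h3⟩
    obtain ⟨z₂, h2, h3⟩ := h1.exists
    exact ⟨z₁, hz₁, z₂, h2, h3.symm⟩
  have hFm : MapsTo F UD UD := by
    refine extension_mapsTo hP hFd (fun z hz => ?_) ⟨z₁, Om_subset hz₁, z₂, Om_subset hz₂, ?_⟩
    · rw [hF z hz]; exact Om'_subset (hbij.mapsTo hz)
    · rw [hF z₁ hz₁, hF z₂ hz₂]
      exact fun h => hz₁₂ (hbij.injOn hz₁ hz₂ h)
  have hGm : MapsTo G UD UD := by
    have h1 := hbij.mapsTo hz₁
    have h2 := hbij.mapsTo hz₂
    refine extension_mapsTo hP' hGd (fun z hz => ?_) ⟨f z₁, Om'_subset h1, f z₂, Om'_subset h2, ?_⟩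
    · rw [hG z hz]; exact Om_subset (hgm hz)
    · rw [hG _ h1, hG _ h2, hg _ hz₁, hg _ hz₂]
      exact hz₁₂
  have hGF : ∀ z ∈ UD, G (F z) = z := by
    refine comp_eq_id hP hFd hGd hFm fun z hz => ?_
    rw [hF z hz, hG _ (hbij.mapsTo hz), hg z hz]
  have hFG : ∀ z ∈ UD, F (G z) = z := by
    refine comp_eq_id hP' hGd hFd hGm fun z hz => ?_
    rw [hG z hz, hF _ (hgm hz), hfg z hz]
  -- punctures go to punctures
  have hFP : ∀ n : ℤ, ∃ k : ℤ, k ≠ 0 ∧ F (pnt n) = pnt k := by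
    intro n
    by_contra hcon
    push Not at hcon
    have h1 : F (pnt n) ∈ Om' := by
      refine ⟨hFm (pnt_mem n), ?_⟩
      rintro ⟨k, hk, hk'⟩
      exact hcon k hk hk'.symm
    have h2 := hGF _ (pnt_mem n)
    rw [hG _ h1] at h2
    have h3 := hgm h1
    rw [h2] at h3
    exact h3.2 ⟨n, rfl⟩
  have hGP : ∀ n : ℤ, n ≠ 0 → ∃ k : ℤ, G (pnt n) = pnt k := by
    intro n hn
    by_contra hcon
    push Not at hcon
    have h1 : G (pnt n) ∈ Om := by
      refine ⟨hGm (pnt_mem n), ?_⟩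
      rintro ⟨k, hk⟩
      exact hcon k hk.symm
    have h2 := hFG _ (pnt_mem n)
    rw [hF _ h1] at h2
    have h3 := hbij.mapsTo h1
    rw [h2] at h3
    exact h3.2 ⟨n, hn, rfl⟩
  -- isometry
  have hiso : ∀ a ∈ UD, ∀ b ∈ UD, ‖mob (F b) (F a)‖ = ‖mob b a‖ := by
    intro a ha b hb
    refine le_antisymm (schwarz_pick hFd hFm ha hb) ?_
    have h1 := schwarz_pick hGd hGm (hFm ha) (hFm hb)
    rwa [hGF a ha, hGF b hb] at h1
  obtain ⟨m, hm⟩ := hGP 1 one_ne_zero
  have hFm1 : F (pnt m) = pnt 1 := by rw [← hm, hFG _ (pnt_mem 1)]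
  have hnb : ∀ k : ℤ, ‖mob (pnt m) (pnt k)‖ = (Real.exp 1 - 1) / (Real.exp 1 + 1) →
      F (pnt k) = pnt 2 := by
    intro k hk
    obtain ⟨j, hj, hj'⟩ := hFP k
    have h1 := hiso _ (pnt_mem k) _ (pnt_mem m)
    rw [hFm1, hj', hk] at h1
    rcases eq_of_norm_mob h1 with h2 | h2
    · rw [hj', h2]; norm_num
    · exact absurd (by rw [h2]; norm_num) hj
  have h1 := hnb _ (norm_mob_succ m)
  have h2 := hnb _ (norm_mob_pred m)
  have h3 : pnt (m + 1) = pnt (m - 1) := by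
    rw [← hGF _ (pnt_mem (m + 1)), ← hGF _ (pnt_mem (m - 1)), h1, h2]
  have h4 := pnt_injective h3
  omega

end Pool.Agent.Helper47.Dist
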