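import Pool.Agent.Helper47.Dist.Defs

/-!
Weyl's lemma for the Cauchy-Riemann operator: a continuous function with complex linear weak
derivative is holomorphic.
-/

set_option autoImplicit false

namespace Pool.Agent.Helper47.Dist

open MeasureTheory Set Filter Topology Metric
open scoped ContDiff Convolution

/-- The mollifiers. -/
noncomputable def bump (δ : ℝ) (hδ : 0 < δ) : ContDiffBump (0 : ℂ) where
  rIn := δ / 2
  rOut := δ
  rIn_pos := by positivity
  rIn_lt_rOut := by linarith

lemma indicator_locallyIntegrable {f : ℂ → ℂ} {S : Set ℂ} (hS : IsCompact S)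
    (hf : ContinuousOn f S) : LocallyIntegrable (S.indicator f) := by
  have h1 : IntegrableOn f S := hf.integrableOn_compact hS
  exact ((integrable_indicator_iff hS.measurableSet).2 h1).locallyIntegrable

/-- The mollification is holomorphic. -/
lemma mollify_differentiableAt {Ω : Set ℂ} {f : ℂ → ℂ} {D : ℂ → ℂ →L[ℝ] ℂ}
    (hw : HasWeakDeriv Ω f D)
    (hc : ∀ᵐ z ∂volume.restrict Ω, D z Complex.I = Complex.I * D z 1) {S : Set ℂ}
    (hS : IsCompact S) (hSΩ : S ⊆ Ω) (hf : ContinuousOn f S) {δ : ℝ} (hδ : 0 < δ) {z : ℂ}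
    (hz : closedBall z δ ⊆ S) :
    DifferentiableAt ℂ ((bump δ hδ).normed volume ⋆[ContinuousLinearMap.lsmul ℝ ℝ, volume]
      (S.indicator f)) z := by
  set η : ℂ → ℝ := (bump δ hδ).normed volume with hη
  have hηc : HasCompactSupport η := (bump δ hδ).hasCompactSupport_normed
  have hηs : ContDiff ℝ ∞ η := (bump δ hδ).contDiff_normed
  have hηs1 : ContDiff ℝ 1 η := hηs.of_le (by exact_mod_cast le_top)
  have hLI := indicator_locallyIntegrable hS hf
  -- rewrite with the flipped convolution
  have hflip : (η ⋆[ContinuousLinearMap.lsmul ℝ ℝ, volume] (S.indicator f))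
      = ((S.indicator f) ⋆[(ContinuousLinearMap.lsmul ℝ ℝ : ℝ →L[ℝ] ℂ →L[ℝ] ℂ).flip, volume] η) := by
    exact (convolution_flip (L := (ContinuousLinearMap.lsmul ℝ ℝ : ℝ →L[ℝ] ℂ →L[ℝ] ℂ))).symm
  rw [hflip]
  set L : ℂ →L[ℝ] ℝ →L[ℝ] ℂ := (ContinuousLinearMap.lsmul ℝ ℝ : ℝ →L[ℝ] ℂ →L[ℝ] ℂ).flip with hL
  have hder := hηc.hasFDerivAt_convolution_right L hLI hηs1 z
  have hval : ∀ v, ((S.indicator f) ⋆[L.precompR ℂ, volume] fderiv ℝ η) z v
      = ∫ w, η (z - w) • D w v := by
    intro v
    rw [convolution_precompR_apply L hLI (hηc.fderiv ℝ) (hηs1.continuous_fderiv one_ne_zero)]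
    -- the test function
    set φ : ℂ → ℝ := fun w => η (z - w) with hφ
    have hφs : ContDiff ℝ ∞ φ := hηs.comp (contDiff_const.sub contDiff_id)
    have hφsupp : tsupport φ ⊆ closedBall z δ := by
      refine closure_minimal ?_ isClosed_closedBall
      intro w hw
      have h1 : z - w ∈ Function.support η := hw
      rw [hη, (bump δ hδ).support_normed_eq, mem_ball_zero_iff] at h1
      rw [mem_closedBall, dist_comm, dist_eq_norm]
      exact h1.le
    have hφc : HasCompactSupport φ :=
      HasCompactSupport.of_support_subset_isCompact (isCompact_closedBall z δ)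
        (subset_closure.trans hφsupp)
    have hφΩ : tsupport φ ⊆ Ω := hφsupp.trans (hz.trans hSΩ)
    have hibp := hw.integral_eq φ hφs hφc hφΩ v
    rw [hibp]
    have hfd : ∀ w, fderiv ℝ φ w v = -fderiv ℝ η (z - w) v := by
      intro w
      have h1 : HasFDerivAt η (fderiv ℝ η (z - w)) (z - w) :=
        (hηs1.differentiable one_ne_zero (z - w)).hasFDerivAt
      have h2 : HasFDerivAt (fun w : ℂ => z - w) (-(ContinuousLinearMap.id ℝ ℂ)) w := by
        simpa using (hasFDerivAt_id w).const_sub z
      have h3 := (h1.comp w h2).fderiv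
      rw [show φ = η ∘ fun w => z - w from rfl, h3]
      simp
    rw [convolution_def, ← integral_neg]
    refine integral_congr_ae (Eventually.of_forall fun w => ?_)
    show L (S.indicator f w) (fderiv ℝ η (z - w) v) = -(fderiv ℝ φ w v • f w)
    rw [hfd, hL, ContinuousLinearMap.flip_apply, ContinuousLinearMap.lsmul_apply, neg_smul, neg_neg]
    by_cases hwS : w ∈ S
    · rw [indicator_of_mem hwS]
    · have : fderiv ℝ η (z - w) = 0 := by
        have h1 : z - w ∉ tsupport η := by
          rw [hη, (bump δ hδ).tsupport_normed_eq, mem_closedBall_zero_iff]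
          intro h2
          apply hwS
          apply hz
          rw [mem_closedBall, dist_comm, dist_eq_norm]
          exact h2
        exact image_eq_zero_of_notMem_tsupport fun h2 => h1 (tsupport_fderiv_subset ℝ h2)
      rw [this]; simp
  rw [differentiableAt_complex_iff_differentiableAt_real]
  refine ⟨hder.differentiableAt, ?_⟩
  rw [hder.fderiv, hval, hval, smul_eq_mul, ← integral_const_mul]
  -- a.e. equality
  have hmeas : MeasurableSet (closedBall z δ) := isClosed_closedBall.measurableSet
  have hae : ∀ᵐ w ∂volume, w ∈ closedBall z δ → D w Complex.I = Complex.I * D w 1 := by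
    have h1 : ∀ᵐ w ∂volume.restrict (closedBall z δ), D w Complex.I = Complex.I * D w 1 :=
      ae_restrict_of_ae_restrict_of_subset (hz.trans hSΩ) hc
    exact (ae_restrict_iff' hmeas).1 h1
  refine integral_congr_ae ?_
  filter_upwards [hae] with w hw1
  by_cases hwz : w ∈ closedBall z δ
  · show η (z - w) • D w Complex.I = Complex.I * (η (z - w) • D w 1)
    rw [hw1 hwz, mul_smul_comm]
  · have h1 : η (z - w) = 0 := by
      have h2 : z - w ∉ Function.support η := by
        rw [hη, (bump δ hδ).support_normed_eq, mem_ball_zero_iff]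
        intro h3
        apply hwz
        rw [mem_closedBall, dist_comm, dist_eq_norm]
        exact h3.le
      exact Function.notMem_support.1 h2
    show η (z - w) • D w Complex.I = Complex.I * (η (z - w) • D w 1)
    rw [h1]; simp

/-- Weyl's lemma. -/
theorem differentiableOn_of_weak {Ω : Set ℂ} (hΩ : IsOpen Ω) {f : ℂ → ℂ} {D : ℂ → ℂ →L[ℝ] ℂ}
    (hf : ContinuousOn f Ω) (hw : HasWeakDeriv Ω f D)
    (hc : ∀ᵐ z ∂volume.restrict Ω, D z Complex.I = Complex.I * D z 1) :
    DifferentiableOn ℂ f Ω := by
  intro z₀ hz₀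
  obtain ⟨R, hR, hball⟩ := Metric.nhds_basis_closedBall.mem_iff.1 (hΩ.mem_nhds hz₀)
  set r := R / 2 with hr
  have hrpos : 0 < r := by positivity
  set S := closedBall z₀ R with hS
  have hScomp : IsCompact S := isCompact_closedBall z₀ R
  have hfS : ContinuousOn f S := hf.mono hball
  have huc : UniformContinuousOn f S := hScomp.uniformContinuousOn_of_continuous hfS
  set δ : ℕ → ℝ := fun n => r / (n + 1) with hδ
  have hδpos : ∀ n, 0 < δ n := fun n => by positivity
  have hδle : ∀ n, δ n ≤ r := fun n => by
    rw [hδ]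
    simp only
    rw [div_le_iff₀ (by positivity)]
    nlinarith [Nat.cast_nonneg (α := ℝ) n]
  have hδlim : Tendsto δ atTop (𝓝 0) := by
    have := (tendsto_one_div_add_atTop_nhds_zero_nat (𝕜 := ℝ)).const_mul r
    simpa [hδ, div_eq_mul_inv] using this
  set F : ℕ → ℂ → ℂ := fun n => (bump (δ n) (hδpos n)).normed volume
    ⋆[ContinuousLinearMap.lsmul ℝ ℝ, volume] (S.indicator f) with hF
  have hsub : ∀ n, ∀ z ∈ ball z₀ r, closedBall z (δ n) ⊆ S := by
    intro n z hz w hw
    rw [hS, mem_closedBall]
    have h1 := mem_closedBall.1 hw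
    have h2 := mem_ball.1 hz
    have h3 := hδle n
    have h4 := dist_triangle w z z₀
    rw [hr] at h2 h3
    linarith
  have hlim : TendstoLocallyUniformlyOn F f atTop (ball z₀ r) := by
    apply TendstoUniformlyOn.tendstoLocallyUniformlyOn
    rw [Metric.tendstoUniformlyOn_iff]
    intro ε hε
    obtain ⟨d, hd, hd'⟩ := Metric.uniformContinuousOn_iff.1 huc (ε / 2) (by positivity)
    filter_upwards [hδlim.eventually_lt_const hd] with n hn z hz
    have hzS : z ∈ S := hsub n z hz (mem_closedBall_self (hδpos n).le)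
    have h1 : dist (F n z) (S.indicator f z) ≤ ε / 2 := by
      refine ContDiffBump.dist_normed_convolution_le ?_ fun w hw => ?_
      · exact (indicator_locallyIntegrable hScomp hfS).aestronglyMeasurable
      · have hw' : w ∈ ball z (δ n) := hw
        have hwS : w ∈ S := hsub n z hz (ball_subset_closedBall hw')
        rw [indicator_of_mem hwS, indicator_of_mem hzS]
        exact (hd' w hwS z hzS ((mem_ball.1 hw').trans hn)).le
    rw [indicator_of_mem hzS, dist_comm] at h1
    linarith
  have hFd : ∀ n, DifferentiableOn ℂ (F n) (ball z₀ r) := fun n z hz =>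
    (mollify_differentiableAt hw hc hScomp hball hfS (hδpos n) (hsub n z hz)).differentiableWithinAt
  have h1 : DifferentiableOn ℂ f (ball z₀ r) :=
    hlim.differentiableOn (Eventually.of_forall hFd) isOpen_ball
  exact (h1.differentiableAt (ball_mem_nhds z₀ hrpos)).differentiableWithinAt

end Pool.Agent.Helper47.Dist
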