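import Pool.Agent.Helper47.Dist.Maps
import Pool.Agent.Helper47.Dist.Rigid
import Pool.Agent.Helper47.Dist.Weyl

/-!
Energy estimates and the nonexistence of minimisers.
-/

set_option autoImplicit false

namespace Pool.Agent.Helper47.Dist

open Set Filter Topology Metric MeasureTheory

/-- The region where `F j` is distorted. -/
def Reg (j : ℕ) : Set ℂ := UD ∩ L ⁻¹' {w | (j : ℝ) - 3 / 2 < w.re}

lemma isOpen_Reg (j : ℕ) : IsOpen (Reg j) :=
  differentiableOn_L.continuousOn.isOpen_inter_preimage isOpen_ball
    (isOpen_lt continuous_const Complex.continuous_re)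

lemma volume_UD_ne_top : (volume UD : ENNReal) ≠ ⊤ := measure_ball_lt_top.ne

lemma tendsto_volume_Reg : Tendsto (fun j => volume (Reg j)) atTop (𝓝 0) := by
  have h1 : Antitone Reg := by
    intro i j hij z hz
    refine ⟨hz.1, ?_⟩
    have h2 : (i : ℝ) ≤ j := by exact_mod_cast hij
    have h3 : (j : ℝ) - 3 / 2 < (L z).re := hz.2
    show (i : ℝ) - 3 / 2 < (L z).re
    linarith
  have h2 : (⋂ j, Reg j) = ∅ := by
    rw [eq_empty_iff_forall_notMem]
    intro z hz
    rw [mem_iInter] at hz
    obtain ⟨n, hn⟩ := exists_nat_gt ((L z).re + 3 / 2)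
    have h3 : (n : ℝ) - 3 / 2 < (L z).re := (hz n).2
    linarith
  have h3 := tendsto_measure_iInter_atTop (μ := (volume : Measure ℂ)) (s := Reg)
    (fun j => (isOpen_Reg j).measurableSet.nullMeasurableSet) h1
    ⟨0, ((measure_mono inter_subset_left).trans_lt measure_ball_lt_top).ne⟩
  rw [h2, measure_empty] at h3
  exact h3

lemma distortion_DF_le {M : ℝ} (hM : ∀ s, deriv prof s ≤ M) (j : ℕ) {z : ℂ} (hz : z ∈ UD) :
    distortion (DF j z) ≤ M := by
  rw [distortion_DF j hz]
  have h1 := one_le_deriv_prof ((L z).re - j)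
  have h2 := hM ((L z).re - j)
  set t := deriv prof ((L z).re - j)
  rw [div_le_iff₀ (by linarith)]
  nlinarith

lemma distortion_DF_eq_one {j : ℕ} {z : ℂ} (hz : z ∈ UD) (hz' : z ∉ Reg j) :
    distortion (DF j z) = 1 := by
  rw [distortion_DF j hz]
  have h1 : (L z).re ≤ (j : ℝ) - 3 / 2 := by
    by_contra h
    push Not at h
    exact hz' ⟨hz, h⟩
  rw [deriv_prof_of_lt (by linarith)]
  norm_num

/-- Energy of the competitors. -/
lemma energy_F_le {M : ℝ} (hM : ∀ s, deriv prof s ≤ M) {p : ℝ} (hp : 0 < p) (j : ℕ) :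
    energy p Om (DF j) ≤ volume Om + ENNReal.ofReal (M ^ p) * volume (Reg j) := by
  have hRm : MeasurableSet (Reg j) := (isOpen_Reg j).measurableSet
  have h1 : energy p Om (DF j)
      ≤ ∫⁻ z in Om, (1 + (Reg j).indicator (fun _ => ENNReal.ofReal (M ^ p)) z) := by
    unfold energy
    refine lintegral_mono_ae ?_
    refine (ae_restrict_mem isOpen_Om.measurableSet).mono fun z hz => ?_
    by_cases hzR : z ∈ Reg j
    · rw [indicator_of_mem hzR]
      refine le_add_left ?_
      refine ENNReal.ofReal_le_ofReal ?_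
      exact Real.rpow_le_rpow (zero_le_one.trans (one_le_distortion _))
        (distortion_DF_le hM j (Om_subset hz)) hp.le
    · rw [distortion_DF_eq_one (Om_subset hz) hzR, Real.one_rpow, ENNReal.ofReal_one]
      exact le_self_add
  refine h1.trans ?_
  rw [lintegral_add_left measurable_const, lintegral_indicator hRm]
  refine add_le_add ?_ ?_
  · simp
  · rw [lintegral_const]
    refine mul_le_mul_right ?_ _
    rw [Measure.restrict_restrict hRm, Measure.restrict_apply_univ]
    exact measure_mono inter_subset_left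

lemma measurable_distortion : Measurable distortion := by
  unfold distortion
  refine Measurable.ite ?_ ?_ measurable_const
  · exact measurableSet_lt measurable_const continuous_jac.measurable
  · exact continuous_hsNormSq.measurable.div continuous_jac.measurable

/-- A map of minimal energy would be conformal. -/
theorem not_minimizer {p : ℝ} (hp : 0 < p) {f : ℂ → ℂ} {D : ℂ → ℂ →L[ℝ] ℂ}
    (hf : InClass Om Om' f D)
    (hmin : ∀ h Dh, InClass Om Om' h Dh → energy p Om D ≤ energy p Om Dh) : False := by
  obtain ⟨M, hM⟩ := exists_bound_deriv_prof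
  have hOmfin : (volume Om : ENNReal) ≠ ⊤ :=
    ((measure_mono Om_subset).trans_lt measure_ball_lt_top).ne
  -- the energy is the area
  have h1 : energy p Om D ≤ volume Om := by
    have h2 : Tendsto (fun j => volume Om + ENNReal.ofReal (M ^ p) * volume (Reg j)) atTop
        (𝓝 (volume Om + ENNReal.ofReal (M ^ p) * 0)) := by
      refine tendsto_const_nhds.add ?_
      exact ENNReal.Tendsto.const_mul tendsto_volume_Reg (Or.inr ENNReal.ofReal_ne_top)
    rw [mul_zero, add_zero] at h2
    exact ge_of_tendsto' h2 fun j => (hmin _ _ (inClass_F j)).trans (energy_F_le hM hp j)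
  have hmeas : AEMeasurable (fun z => ENNReal.ofReal (distortion (D z) ^ p)) (volume.restrict Om) := by
    have h2 : AEStronglyMeasurable D (volume.restrict Om) :=
      hf.finiteDistortion.weakDeriv.locallyIntegrable_deriv.aestronglyMeasurable
    exact (((measurable_distortion.comp_aemeasurable h2.aemeasurable)).pow_const p).ennreal_ofReal
  have hge : ∀ A : ℂ →L[ℝ] ℂ, (1 : ENNReal) ≤ ENNReal.ofReal (distortion A ^ p) := fun A => by
    rw [ENNReal.one_le_ofReal]
    exact Real.one_le_rpow (one_le_distortion A) hp.le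
  have hae : (fun _ => (1 : ENNReal)) =ᵐ[volume.restrict Om]
      fun z => ENNReal.ofReal (distortion (D z) ^ p) := by
    refine ae_eq_of_ae_le_of_lintegral_le (Eventually.of_forall fun z => hge _) ?_ hmeas ?_
    · simpa using hOmfin
    · simpa [energy] using h1
  -- complex linearity almost everywhere
  obtain ⟨K, _, hK⟩ := hf.finiteDistortion.distortion
  have hc : ∀ᵐ z ∂volume.restrict Om, D z Complex.I = Complex.I * D z 1 := by
    filter_upwards [hae, hK] with z hz1 hz2
    refine apply_I_of_distortion_eq_one hz2.2 ENNReal.toReal_nonneg ?_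
    have h2 : distortion (D z) ^ p = 1 := by
      have h3 := congrArg ENNReal.toReal hz1
      rw [ENNReal.toReal_one, ENNReal.toReal_ofReal
        (Real.rpow_nonneg (zero_le_one.trans (one_le_distortion _)) p)] at h3
      exact h3.symm
    rcases (one_le_distortion (D z)).eq_or_lt with h3 | h3
    · exact h3.symm
    · exact absurd h2 (Real.one_lt_rpow h3 hp).ne'
  exact no_conformal hf.homeo (differentiableOn_of_weak isOpen_Om hf.homeo.continuousOn
    hf.finiteDistortion.weakDeriv hc)

lemma exists_finite_energy {p : ℝ} (hp : 0 < p) :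
    ∃ g Dg, InClass Om Om' g Dg ∧ energy p Om Dg ≠ ⊤ := by
  obtain ⟨M, hM⟩ := exists_bound_deriv_prof
  refine ⟨F 0, DF 0, inClass_F 0, ((energy_F_le hM hp 0).trans_lt ?_).ne⟩
  refine ENNReal.add_lt_top.2 ⟨(measure_mono Om_subset).trans_lt measure_ball_lt_top, ?_⟩
  exact ENNReal.mul_lt_top ENNReal.ofReal_lt_top
    ((measure_mono inter_subset_left).trans_lt measure_ball_lt_top)

end Pool.Agent.Helper47.Dist
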