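import Pool.Agent.Helper47.Dist.Disc

/-!
The competitors: homeomorphisms of `Ω` onto `Ω'` whose distortion is concentrated near the
boundary of the disc.
-/

set_option autoImplicit false

namespace Pool.Agent.Helper47.Dist

open Set Filter Topology Metric MeasureTheory
open scoped ContDiff

/-! ### The profile -/

/-- A smooth increasing function equal to `s` for `s ≤ -1` and to `s + 1` for `s ≥ 0`. -/
noncomputable def prof (s : ℝ) : ℝ := s + Real.smoothTransition (s + 1)

lemma contDiff_prof : ContDiff ℝ ∞ prof :=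
  contDiff_id.add (Real.smoothTransition.contDiff.comp (contDiff_id.add contDiff_const))

lemma differentiable_prof : Differentiable ℝ prof := contDiff_prof.differentiable (by simp)

lemma continuous_prof : Continuous prof := contDiff_prof.continuous

lemma continuous_deriv_prof : Continuous (deriv prof) := contDiff_prof.continuous_deriv (by simp)

lemma prof_of_le {s : ℝ} (hs : s ≤ -1) : prof s = s := by
  rw [prof, Real.smoothTransition.zero_of_nonpos (by linarith), add_zero]

lemma prof_of_ge {s : ℝ} (hs : 0 ≤ s) : prof s = s + 1 := by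
  rw [prof, Real.smoothTransition.one_of_one_le (by linarith)]

lemma one_le_deriv_prof (s : ℝ) : 1 ≤ deriv prof s := by
  have h1 : DifferentiableAt ℝ (fun s : ℝ => Real.smoothTransition (s + 1)) s := by
    have : ContDiff ℝ 1 (fun s : ℝ => Real.smoothTransition (s + 1)) :=
      Real.smoothTransition.contDiff.comp (contDiff_id.add contDiff_const)
    exact this.differentiable one_ne_zero s
  have h2 : deriv prof s = 1 + deriv (fun s : ℝ => Real.smoothTransition (s + 1)) s := by
    have := (hasDerivAt_id s).add h1.hasDerivAt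
    exact this.deriv
  rw [h2]
  have h3 : Monotone fun s : ℝ => Real.smoothTransition (s + 1) := fun a b hab =>
    Real.smoothTransition.monotone (by linarith)
  have := h3.deriv_nonneg (x := s)
  linarith

lemma deriv_prof_of_lt {s : ℝ} (hs : s < -1) : deriv prof s = 1 := by
  have h : prof =ᶠ[𝓝 s] fun s => s := by
    filter_upwards [Iio_mem_nhds hs] with t ht
    exact prof_of_le (le_of_lt ht)
  rw [h.deriv_eq]; simp

lemma deriv_prof_of_gt {s : ℝ} (hs : 0 < s) : deriv prof s = 1 := by
  have h : prof =ᶠ[𝓝 s] fun s => s + 1 := by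
    filter_upwards [Ioi_mem_nhds hs] with t ht
    exact prof_of_ge (le_of_lt ht)
  rw [h.deriv_eq]; simp

lemma exists_bound_deriv_prof : ∃ M : ℝ, ∀ s, deriv prof s ≤ M := by
  obtain ⟨M, hM⟩ := (isCompact_Icc (a := (-1 : ℝ)) (b := 0)).exists_bound_of_continuousOn
    continuous_deriv_prof.continuousOn
  refine ⟨max M 1, fun s => ?_⟩
  rcases lt_or_ge s (-1) with h | h
  · rw [deriv_prof_of_lt h]; exact le_max_right _ _
  · rcases lt_or_ge 0 s with h' | h'
    · rw [deriv_prof_of_gt h']; exact le_max_right _ _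
    · exact ((le_abs_self _).trans (hM s ⟨h, h'⟩)).trans (le_max_left _ _)

lemma strictMono_prof : StrictMono prof :=
  strictMono_of_deriv_pos fun s => one_pos.trans_le (one_le_deriv_prof s)

lemma surjective_prof : Function.Surjective prof := by
  refine continuous_prof.surjective ?_ ?_
  · refine tendsto_atTop_mono (fun s => ?_) tendsto_id
    rw [prof, id]
    have := Real.smoothTransition.nonneg (s + 1)
    linarith
  · have h1 : Tendsto (fun s : ℝ => s + 1) atBot atBot := tendsto_atBot_add_const_right _ 1 tendsto_id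
    refine tendsto_atBot_mono (fun s => ?_) h1
    rw [prof]
    have := Real.smoothTransition.le_one (s + 1)
    linarith

/-- The inverse of `prof`. -/
noncomputable def profEquiv : ℝ ≃o ℝ := StrictMono.orderIsoOfSurjective prof strictMono_prof
  surjective_prof

lemma profEquiv_apply (s : ℝ) : profEquiv s = prof s := rfl

lemma continuous_profEquiv_symm : Continuous profEquiv.symm := profEquiv.symm.continuous

/-! ### The maps of the strip -/

/-- The map `x + iy ↦ prof(x - j) + iy` of the strip. -/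
noncomputable def H (j : ℕ) (w : ℂ) : ℂ := (prof (w.re - j) : ℝ) + w.im * Complex.I

/-- Its inverse. -/
noncomputable def Hinv (j : ℕ) (w : ℂ) : ℂ := ((profEquiv.symm w.re + j : ℝ) : ℂ) + w.im * Complex.I

lemma H_re (j : ℕ) (w : ℂ) : (H j w).re = prof (w.re - j) := by simp [H]
lemma H_im (j : ℕ) (w : ℂ) : (H j w).im = w.im := by simp [H]
lemma Hinv_re (j : ℕ) (w : ℂ) : (Hinv j w).re = profEquiv.symm w.re + j := by simp [Hinv]
lemma Hinv_im (j : ℕ) (w : ℂ) : (Hinv j w).im = w.im := by simp [Hinv]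

lemma Hinv_H (j : ℕ) (w : ℂ) : Hinv j (H j w) = w := by
  apply Complex.ext
  · rw [Hinv_re, H_re, ← profEquiv_apply, profEquiv.symm_apply_apply]; ring
  · rw [Hinv_im, H_im]

lemma H_Hinv (j : ℕ) (w : ℂ) : H j (Hinv j w) = w := by
  apply Complex.ext
  · rw [H_re, Hinv_re, ← profEquiv_apply, add_sub_cancel_right, profEquiv.apply_symm_apply]
  · rw [H_im, Hinv_im]

lemma H_mem {j : ℕ} {w : ℂ} (hw : w ∈ strip) : H j w ∈ strip := by
  show |(H j w).im| < _
  rw [H_im]; exact hw

lemma Hinv_mem {j : ℕ} {w : ℂ} (hw : w ∈ strip) : Hinv j w ∈ strip := by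
  show |(Hinv j w).im| < _
  rw [Hinv_im]; exact hw

lemma continuous_Hinv (j : ℕ) : Continuous (Hinv j) := by
  have h1 : Continuous fun w : ℂ => profEquiv.symm w.re + (j : ℝ) :=
    (continuous_profEquiv_symm.comp Complex.continuous_re).add continuous_const
  exact (Complex.continuous_ofReal.comp h1).add
    ((Complex.continuous_ofReal.comp Complex.continuous_im).mul continuous_const)

lemma continuous_H (j : ℕ) : Continuous (H j) := by
  have h1 : Continuous fun w : ℂ => prof (w.re - (j : ℝ)) :=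
    continuous_prof.comp (Complex.continuous_re.sub continuous_const)
  exact (Complex.continuous_ofReal.comp h1).add
    ((Complex.continuous_ofReal.comp Complex.continuous_im).mul continuous_const)

/-- The maps of the disc. -/
noncomputable def F (j : ℕ) (z : ℂ) : ℂ := T (H j (L z))

/-- Their inverses. -/
noncomputable def Finv (j : ℕ) (z : ℂ) : ℂ := T (Hinv j (L z))

lemma F_mem {j : ℕ} {z : ℂ} (hz : z ∈ UD) : F j z ∈ UD := T_mem (H_mem (L_mem_strip hz))
lemma Finv_mem {j : ℕ} {z : ℂ} (hz : z ∈ UD) : Finv j z ∈ UD := T_mem (Hinv_mem (L_mem_strip hz))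

lemma Finv_F {j : ℕ} {z : ℂ} (hz : z ∈ UD) : Finv j (F j z) = z := by
  rw [Finv, F, L_T (H_mem (L_mem_strip hz)), Hinv_H, T_L hz]

lemma F_Finv {j : ℕ} {z : ℂ} (hz : z ∈ UD) : F j (Finv j z) = z := by
  rw [Finv, F, L_T (Hinv_mem (L_mem_strip hz)), H_Hinv, T_L hz]

lemma F_pnt (j : ℕ) (n : ℤ) : F j (pnt n) = pnt (if n - j < 0 then n - j else n - j + 1) := by
  rw [F, L_pnt, pnt]
  congr 1
  apply Complex.ext
  · rw [H_re, Complex.intCast_re]
    split_ifs with h
    · rw [prof_of_le, Complex.intCast_re]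
      · push_cast; ring
      · have : n - j ≤ -1 := by omega
        have h2 : ((n - j : ℤ) : ℝ) ≤ ((-1 : ℤ) : ℝ) := by exact_mod_cast this
        push_cast at h2
        exact h2
    · rw [prof_of_ge, Complex.intCast_re]
      · push_cast; ring
      · have : 0 ≤ n - (j : ℤ) := by omega
        have h2 : ((0 : ℤ) : ℝ) ≤ ((n - j : ℤ) : ℝ) := by exact_mod_cast this
        push_cast at h2
        exact h2
  · rw [H_im, Complex.intCast_im, Complex.intCast_im]

lemma bijOn_F (j : ℕ) : BijOn (F j) Om Om' := by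
  have hinj : InjOn (F j) UD := fun z hz w hw h => by
    rw [← Finv_F (j := j) hz, ← Finv_F (j := j) hw, h]
  refine ⟨?_, hinj.mono Om_subset, ?_⟩
  · rintro z ⟨hz, hz'⟩
    refine ⟨F_mem hz, ?_⟩
    rintro ⟨n, hn, hn'⟩
    apply hz'
    -- the preimage of `pnt n`
    have hn0 : n ≠ 0 := hn
    rcases lt_or_gt_of_ne hn0 with h | h
    · refine ⟨n + j, ?_⟩
      apply hinj (pnt_mem _) hz
      rw [F_pnt, ← hn', if_pos (by omega)]
      congr 1; omega
    · refine ⟨n + j - 1, ?_⟩
      apply hinj (pnt_mem _) hz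
      rw [F_pnt, ← hn', if_neg (by omega)]
      congr 1; omega
  · rintro w ⟨hw, hw'⟩
    refine ⟨Finv j w, ⟨Finv_mem hw, ?_⟩, F_Finv hw⟩
    rintro ⟨n, hn⟩
    apply hw'
    rw [← F_Finv (j := j) hw, ← hn, F_pnt]
    refine ⟨_, ?_, rfl⟩
    show _ ≠ (0 : ℤ)
    split_ifs <;> omega

lemma differentiableOn_T : DifferentiableOn ℂ T strip := by
  refine DifferentiableOn.div ?_ ?_ fun z hz => exp_add_one_ne hz
  · exact (Complex.differentiable_exp.sub_const 1).differentiableOn
  · exact (Complex.differentiable_exp.add_const 1).differentiableOn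

lemma hasDerivAt_T {w : ℂ} (hw : w ∈ strip) :
    HasDerivAt T (2 * Complex.exp w / (Complex.exp w + 1) ^ 2) w := by
  have h1 := exp_add_one_ne hw
  have h2 := ((Complex.hasDerivAt_exp w).sub_const 1).div ((Complex.hasDerivAt_exp w).add_const 1) h1
  refine h2.congr_deriv ?_
  ring

lemma continuousOn_F (j : ℕ) : ContinuousOn (F j) UD :=
  differentiableOn_T.continuousOn.comp ((continuous_H j).comp_continuousOn
    differentiableOn_L.continuousOn) fun _ hz => H_mem (L_mem_strip hz)

lemma continuousOn_Finv (j : ℕ) : ContinuousOn (Finv j) UD :=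
  differentiableOn_T.continuousOn.comp ((continuous_Hinv j).comp_continuousOn
    differentiableOn_L.continuousOn) fun _ hz => Hinv_mem (L_mem_strip hz)

lemma isHomeoOnto_F (j : ℕ) : IsHomeoOnto (F j) Om Om' where
  continuousOn := (continuousOn_F j).mono Om_subset
  bijOn := bijOn_F j
  continuousOn_inv := ⟨Finv j, (continuousOn_Finv j).mono Om'_subset,
    fun _ hz => Finv_F (Om_subset hz)⟩

/-! ### Derivatives -/

/-- The real linear map `v ↦ c₂ (t Re(c₁ v) + i Im(c₁ v))`. -/
noncomputable def mat (c₂ : ℂ) (t : ℝ) (c₁ : ℂ) : ℂ →L[ℝ] ℂ :=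
  (c₂ • (ContinuousLinearMap.id ℝ ℂ)) ∘L
    ((t • (Complex.ofRealCLM ∘L Complex.reCLM) +
      Complex.I • (Complex.ofRealCLM ∘L Complex.imCLM)) ∘L (c₁ • (ContinuousLinearMap.id ℝ ℂ)))

lemma mat_apply (c₂ : ℂ) (t : ℝ) (c₁ v : ℂ) :
    mat c₂ t c₁ v = c₂ * (t * (c₁ * v).re + Complex.I * (c₁ * v).im) := by
  simp [mat]
  ring

lemma jac_mat (c₂ : ℂ) (t : ℝ) (c₁ : ℂ) :
    jac (mat c₂ t c₁) = t * (Complex.normSq c₁ * Complex.normSq c₂) := by
  rw [jac, mat_apply, mat_apply, Complex.normSq_apply, Complex.normSq_apply]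
  simp
  ring

lemma hsNormSq_mat (c₂ : ℂ) (t : ℝ) (c₁ : ℂ) :
    hsNormSq (mat c₂ t c₁) = (t ^ 2 + 1) / 2 * (Complex.normSq c₁ * Complex.normSq c₂) := by
  rw [hsNormSq, mat_apply, mat_apply, ← Complex.normSq_eq_norm_sq, ← Complex.normSq_eq_norm_sq]
  simp only [Complex.normSq_apply]
  simp
  ring

lemma distortion_mat {c₂ : ℂ} {t : ℝ} {c₁ : ℂ} (ht : 0 < t) (h₁ : c₁ ≠ 0) (h₂ : c₂ ≠ 0) :
    distortion (mat c₂ t c₁) = (t ^ 2 + 1) / (2 * t) := by
  have h3 : 0 < Complex.normSq c₁ * Complex.normSq c₂ :=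
    mul_pos (Complex.normSq_pos.2 h₁) (Complex.normSq_pos.2 h₂)
  have h4 : 0 < jac (mat c₂ t c₁) := by rw [jac_mat]; exact mul_pos ht h3
  rw [distortion, if_pos h4, jac_mat, hsNormSq_mat, mul_div_mul_right _ _ h3.ne']
  field_simp

lemma norm_mat_sq_le {c₂ : ℂ} {t : ℝ} {c₁ : ℂ} (ht : 1 ≤ t) :
    ‖mat c₂ t c₁‖ ^ 2 ≤ t * jac (mat c₂ t c₁) := by
  have ht0 : 0 ≤ t := by linarith
  have h1 : ‖mat c₂ t c₁‖ ≤ t * (‖c₁‖ * ‖c₂‖) := by
    refine ContinuousLinearMap.opNorm_le_bound _ (by positivity) fun v => ?_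
    rw [mat_apply, norm_mul]
    have h2 : ‖(t : ℂ) * ((c₁ * v).re : ℂ) + Complex.I * ((c₁ * v).im : ℂ)‖ ≤ t * ‖c₁ * v‖ := by
      have h3 : ‖(t : ℂ) * ((c₁ * v).re : ℂ) + Complex.I * ((c₁ * v).im : ℂ)‖ ^ 2
          ≤ (t * ‖c₁ * v‖) ^ 2 := by
        rw [mul_pow, ← Complex.normSq_eq_norm_sq, ← Complex.normSq_eq_norm_sq]
        generalize c₁ * v = u
        rw [Complex.normSq_apply, Complex.normSq_apply]
        simp
        have h5 : 1 ≤ t ^ 2 := one_le_pow₀ ht
        nlinarith [mul_self_nonneg u.im]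
      exact le_of_sq_le_sq h3 (by positivity)
    calc ‖c₂‖ * ‖(t : ℂ) * ((c₁ * v).re : ℂ) + Complex.I * ((c₁ * v).im : ℂ)‖
        ≤ ‖c₂‖ * (t * ‖c₁ * v‖) := mul_le_mul_of_nonneg_left h2 (norm_nonneg _)
      _ = t * (‖c₁‖ * ‖c₂‖) * ‖v‖ := by rw [norm_mul]; ring
  rw [jac_mat, Complex.normSq_eq_norm_sq, Complex.normSq_eq_norm_sq]
  calc ‖mat c₂ t c₁‖ ^ 2 ≤ (t * (‖c₁‖ * ‖c₂‖)) ^ 2 := pow_le_pow_left₀ (norm_nonneg _) h1 2
    _ = t * (t * (‖c₁‖ ^ 2 * ‖c₂‖ ^ 2)) := by ring

/-- The derivative of `F j`. -/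
noncomputable def DF (j : ℕ) (z : ℂ) : ℂ →L[ℝ] ℂ :=
  mat (2 * Complex.exp (H j (L z)) / (Complex.exp (H j (L z)) + 1) ^ 2)
    (deriv prof ((L z).re - j)) (2 / ((1 + z) * (1 - z)))

lemma hasFDerivAt_H (j : ℕ) (w : ℂ) : HasFDerivAt (H j)
    ((deriv prof (w.re - j)) • (Complex.ofRealCLM ∘L Complex.reCLM) +
      Complex.I • (Complex.ofRealCLM ∘L Complex.imCLM)) w := by
  have h1 : HasDerivAt (fun s : ℝ => prof (s - j)) (deriv prof (w.re - j)) w.re := by
    have := (differentiable_prof (w.re - j)).hasDerivAt.comp w.re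
      ((hasDerivAt_id w.re).sub_const (j : ℝ))
    exact HasDerivAt.congr_deriv (f := fun s : ℝ => prof (s - j)) this (by simp)
  have h2 : HasFDerivAt (fun w : ℂ => prof (w.re - j)) ((deriv prof (w.re - j)) • Complex.reCLM) w :=
    h1.comp_hasFDerivAt w Complex.reCLM.hasFDerivAt
  have h3 : HasFDerivAt (fun w : ℂ => ((prof (w.re - j) : ℝ) : ℂ))
      (Complex.ofRealCLM ∘L ((deriv prof (w.re - j)) • Complex.reCLM)) w :=
    Complex.ofRealCLM.hasFDerivAt.comp w h2
  have h4 : HasFDerivAt (fun w : ℂ => ((w.im : ℝ) : ℂ)) (Complex.ofRealCLM ∘L Complex.imCLM) w :=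
    Complex.ofRealCLM.hasFDerivAt.comp w Complex.imCLM.hasFDerivAt
  have h5 := h3.add (h4.mul_const Complex.I)
  refine h5.congr_fderiv ?_
  ext <;> simp

lemma hasFDerivAt_F (j : ℕ) {z : ℂ} (hz : z ∈ UD) : HasFDerivAt (F j) (DF j z) z := by
  have h1 := (hasDerivAt_L hz).hasFDerivAt.restrictScalars ℝ
  have h2 := hasFDerivAt_H j (L z)
  have h3 := (hasDerivAt_T (H_mem (j := j) (L_mem_strip hz))).hasFDerivAt.restrictScalars ℝ
  have h4 := h3.comp z (h2.comp z h1)
  refine h4.congr_fderiv ?_
  ext v <;> simp [DF, mat] <;> ring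

lemma exp_ne (w : ℂ) (hw : w ∈ strip) : 2 * Complex.exp w / (Complex.exp w + 1) ^ 2 ≠ 0 :=
  div_ne_zero (mul_ne_zero two_ne_zero (Complex.exp_ne_zero _)) (pow_ne_zero 2 (exp_add_one_ne hw))

lemma distortion_DF (j : ℕ) {z : ℂ} (hz : z ∈ UD) : distortion (DF j z)
    = (deriv prof ((L z).re - j) ^ 2 + 1) / (2 * deriv prof ((L z).re - j)) :=
  distortion_mat (one_pos.trans_le (one_le_deriv_prof _)) (deriv_L_ne hz)
    (exp_ne _ (H_mem (L_mem_strip hz)))

lemma continuousOn_DF (j : ℕ) : ContinuousOn (DF j) UD := by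
  have hL := differentiableOn_L.continuousOn
  have h1 : ContinuousOn (fun z => 2 * Complex.exp (H j (L z)) / (Complex.exp (H j (L z)) + 1) ^ 2)
      UD := by
    have h2 : ContinuousOn (fun z => Complex.exp (H j (L z))) UD :=
      Complex.continuous_exp.comp_continuousOn ((continuous_H j).comp_continuousOn hL)
    refine (continuousOn_const.mul h2).div ((h2.add continuousOn_const).pow 2) fun z hz => ?_
    exact pow_ne_zero 2 (exp_add_one_ne (H_mem (L_mem_strip hz)))
  have h3 : ContinuousOn (fun z => deriv prof ((L z).re - j)) UD :=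
    continuous_deriv_prof.comp_continuousOn
      ((Complex.continuous_re.comp_continuousOn hL).sub continuousOn_const)
  have h4 : ContinuousOn (fun z : ℂ => 2 / ((1 + z) * (1 - z))) UD := by
    refine continuousOn_const.div (by fun_prop) fun z hz h => ?_
    have := deriv_L_ne hz
    rw [h, div_zero] at this
    exact this rfl
  unfold DF mat
  refine ContinuousOn.clm_comp (h1.smul continuousOn_const) (ContinuousOn.clm_comp ?_
    (h4.smul continuousOn_const))
  exact (h3.smul continuousOn_const).add continuousOn_const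

/-! ### Smooth maps have weak derivatives -/

lemma hasWeakDeriv_of_smooth {Ω : Set ℂ} (hΩ : IsOpen Ω) {f : ℂ → ℂ} {D : ℂ → ℂ →L[ℝ] ℂ}
    (hf : ∀ z ∈ Ω, HasFDerivAt f (D z) z) (hD : ContinuousOn D Ω) : HasWeakDeriv Ω f D where
  locallyIntegrable := by
    have hc : ContinuousOn f Ω := fun z hz => (hf z hz).continuousAt.continuousWithinAt
    exact hc.locallyIntegrableOn hΩ.measurableSet
  locallyIntegrable_deriv := hD.locallyIntegrableOn hΩ.measurableSet
  integral_eq := by
    intro φ hφ hφc hφΩ v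
    have hc : ContinuousOn f Ω := fun z hz => (hf z hz).continuousAt.continuousWithinAt
    have hφ1 : ContDiff ℝ 1 φ := hφ.of_le (by exact_mod_cast le_top)
    have hcomp : IsCompact (tsupport φ) := hφc
    have hfd : ∀ z ∈ tsupport φ, fderiv ℝ f z = D z := fun z hz => (hf z (hφΩ hz)).fderiv
    -- integrability helper
    have hint : ∀ g : ℂ → ℂ, ContinuousOn g (tsupport φ) → (Function.support g ⊆ tsupport φ) →
        Integrable g := by
      intro g hg hgs
      rw [← integrableOn_iff_integrable_of_support_subset hgs]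
      exact hg.integrableOn_compact hcomp
    have e1 : ∫ z, φ z • D z v = ∫ z, φ z • fderiv ℝ f z v := by
      refine integral_congr_ae (Eventually.of_forall fun z => ?_)
      simp only
      by_cases hz : z ∈ tsupport φ
      · rw [hfd z hz]
      · rw [image_eq_zero_of_notMem_tsupport hz, zero_smul, zero_smul]
    rw [e1]
    refine integral_smul_fderiv_eq_neg_fderiv_smul_of_integrable (𝕜 := ℝ) ?_ ?_ ?_ ?_ ?_
    · refine hint _ ?_ ?_
      · exact ((hφ1.continuous_fderiv one_ne_zero).clm_apply continuous_const).continuousOn.smul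
          (hc.mono hφΩ)
      · intro z hz
        by_contra hcon
        apply hz
        have : fderiv ℝ φ z = 0 :=
          image_eq_zero_of_notMem_tsupport fun h => hcon (tsupport_fderiv_subset ℝ h)
        simp only
        rw [this]; simp
    · refine hint _ ?_ ?_
      · refine hφ1.continuous.continuousOn.smul ?_
        have h1 : ContinuousOn (fun z => D z v) (tsupport φ) :=
          (hD.mono hφΩ).clm_apply continuousOn_const
        exact h1.congr fun z hz => by rw [hfd z hz]
      · intro z hz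
        by_contra hcon
        apply hz
        simp only
        rw [image_eq_zero_of_notMem_tsupport hcon, zero_smul]
    · refine hint _ (hφ1.continuous.continuousOn.smul (hc.mono hφΩ)) ?_
      intro z hz
      by_contra hcon
      apply hz
      simp only
      rw [image_eq_zero_of_notMem_tsupport hcon, zero_smul]
    · intro z _
      exact hφ1.differentiable one_ne_zero z
    · intro z hz
      exact (hf z (hφΩ hz)).differentiableAt

lemma continuous_jac : Continuous jac := by
  unfold jac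
  have h1 : Continuous fun A : ℂ →L[ℝ] ℂ => A 1 := by fun_prop
  have h2 : Continuous fun A : ℂ →L[ℝ] ℂ => A Complex.I := by fun_prop
  exact ((Complex.continuous_re.comp h1).mul (Complex.continuous_im.comp h2)).sub
    ((Complex.continuous_im.comp h1).mul (Complex.continuous_re.comp h2))

lemma continuous_hsNormSq : Continuous hsNormSq := by
  unfold hsNormSq
  have h1 : Continuous fun A : ℂ →L[ℝ] ℂ => A 1 := by fun_prop
  have h2 : Continuous fun A : ℂ →L[ℝ] ℂ => A Complex.I := by fun_prop
  exact ((h1.norm.pow 2).add (h2.norm.pow 2)).div_const 2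

lemma inClass_F (j : ℕ) : InClass Om Om' (F j) (DF j) where
  homeo := isHomeoOnto_F j
  finiteDistortion :=
    { weakDeriv := hasWeakDeriv_of_smooth isOpen_Om (fun z hz => hasFDerivAt_F j (Om_subset hz))
        ((continuousOn_DF j).mono Om_subset)
      locallyIntegrable_jac :=
        (continuous_jac.comp_continuousOn ((continuousOn_DF j).mono Om_subset)).locallyIntegrableOn
          isOpen_Om.measurableSet
      distortion := by
        refine ⟨fun z => ENNReal.ofReal (deriv prof ((L z).re - j)), fun z _ => ?_, ?_⟩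
        · rw [ENNReal.one_le_ofReal]; exact one_le_deriv_prof _
        · refine Eventually.of_forall fun z => ⟨ENNReal.ofReal_ne_top, ?_⟩
          rw [ENNReal.toReal_ofReal (zero_le_one.trans (one_le_deriv_prof _))]
          exact norm_mat_sq_le (one_le_deriv_prof _) }

end Pool.Agent.Helper47.Dist
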